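import Pool.Agent.Work.MP_16b18c_lc.LtMain

/-!
# Locally trivial twins in `P(ω)/Fin` of algebras of subsets of `ω₁`

Let `κ` have size `ℵ₁` and let `𝓑` be an algebra of subsets of `κ` with at most `ℵ₁` classes modulo
countable sets (for instance one that contains all countable sets and is generated by them and `ℵ₁`
further sets). Then there are an algebra `𝓐` of subsets of `ω` and an isomorphism from `𝓐/Fin`
to `𝓑/Fin` that is trivial on every countable subset `K` of `κ`: some injection `g` of `K` into `ω`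
satisfies `[g[X]] ↦ [X]` for every member `X ⊆ K` of `𝓑`. No hypothesis beyond ZFC is used.
-/

namespace Pool.Agent.Results.MP_16b18c_lc.LocallyTrivialTwins

open Set Cardinal Pool.Agent.Work.MP_16b18c_lc

theorem result {κ : Type} (hκ : Cardinal.mk κ = ℵ₁) (𝓑 : Set (Set κ)) (h𝓑 : IsAlg 𝓑)
    (hsm : ∃ 𝓒 : Set (Set κ), Cardinal.mk 𝓒 ≤ ℵ₁ ∧ ∀ X ∈ 𝓑, ∃ C ∈ 𝓒, (symmDiff X C).Countable) :
    ∃ 𝓐 : Set (Set ℕ), IsAlg 𝓐 ∧
      ∃ e : (PFin.mk '' 𝓐 : Set (PFin ℕ)) ≃o (PFin.mk '' 𝓑 : Set (PFin κ)),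
        ∀ K : Set κ, K.Countable → ∃ g : κ → ℕ, InjOn g K ∧ ∀ X ∈ 𝓑, X ⊆ K →
          ∃ h : PFin.mk (g '' X) ∈ PFin.mk '' 𝓐, (e ⟨_, h⟩).1 = PFin.mk X := by
  have : Uncountable κ := by
    rw [← aleph0_lt_mk_iff, hκ]
    exact aleph0_lt_aleph_one
  exact exists_lt_twin hκ.le h𝓑 hsm

end Pool.Agent.Results.MP_16b18c_lc.LocallyTrivialTwins
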