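import Pool.Agent.Work.MP_16b18c_lc.Basic

/-!
# Finitely many automorphisms that are trivial on both sides of `ω* ≅ κ*`

Let `Φ` be an isomorphism from `P(ω)/Fin` to `P(κ)/Fin` (`κ` any set; the interesting case is
`κ = ω₁`). Suppose that finitely many automorphisms of `P(ω)/Fin` are induced by self-maps `f i`
of `ω` and that their conjugates by `Φ` are induced by self-maps `p i` of `κ`. Let `infPart f` be
the union of the infinite components of the graph on `ω` joining `n` to `f i n`, and `infPart p`
the union of the infinite components of the graph on `κ` joining `x` to `p i x`. Then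
`infPart p` is countable and `Φ` maps the class of `infPart f` to the class of `infPart p`.

In particular, if finitely many permutations of `κ` generate a group with uncountably many
infinite orbits, then one of them gives, through `Φ`, a nontrivial automorphism of `P(ω)/Fin`.
-/

namespace Pool.Agent.Results.MP_16b18c_lc.Rigidity

open Pool.Agent.Work.MP_16b18c_lc

theorem result {κ ι : Type*} [Finite ι] (Φ : PFin ℕ ≃o PFin κ)
    (f : ι → ℕ → ℕ) (p : ι → κ → κ)
    (h : ∀ (i : ι) (A : Set ℕ) (B : Set κ), Φ (PFin.mk A) = PFin.mk B →
      Φ (PFin.mk (f i ⁻¹' A)) = PFin.mk (p i ⁻¹' B)) :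
    (infPart p).Countable ∧ Φ (PFin.mk (infPart f)) = PFin.mk (infPart p) :=
  ⟨infPart_countable Φ h, infPart_eq_of_corr Φ h⟩

end Pool.Agent.Results.MP_16b18c_lc.Rigidity
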