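import Pool.Agent.Work.MP_16b18c_lc.LtMain

/-!
# The Katowice problem relative to small algebras of columns

For a set `κ` and a family `𝓑` of subsets of `κ` let `Cols 𝓑` be the part of `P(ω × κ)/Fin` formed
by the classes of the sets all of whose columns are, up to finitely many points, members of `𝓑`
(so `Cols (P(κ))` is `P(ω × κ)/Fin`, which is isomorphic to `P(κ)/Fin` for infinite `κ`, and
`Cols {∅}` is the ideal of the sets with finite columns). Let `κ` be uncountable. Then the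
following are equivalent:

1. the ideals `Cols {∅}` for `ω` and for `κ` are isomorphic;
2. the algebras `Cols {∅, univ}` of sets with finite or cofinite columns are isomorphic;
3. for every algebra `𝓑` of subsets of `κ` with at most `ℵ₁` classes modulo countable sets there
   are an algebra `𝓐` of subsets of `ω` and an isomorphism of `Cols 𝓐` with `Cols 𝓑` that maps the
   ideal of the sets with finite columns onto the same ideal, and is induced by injections on the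
   sequences of members of `𝓑` inside any given countable set;
4. for every algebra `𝓐` of at most `ℵ₁` subsets of `ω` there are an algebra `𝓑` of subsets of `κ`
   and an isomorphism of `Cols 𝓐` with `Cols 𝓑` respecting the sets with finite columns;
5. `κ` has size `ℵ₁` and there is a dominating family of size `ℵ₁`.
-/

namespace Pool.Agent.Results.MP_16b18c_lc.SmallColumns

open Set Filter Cardinal Pool.Agent.Work.MP_16b18c_lc

theorem result {κ : Type} [Uncountable κ] : List.TFAE [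
    Nonempty (Cols ({∅} : Set (Set ℕ)) ≃o Cols ({∅} : Set (Set κ))),
    Nonempty (Cols ({∅, Set.univ} : Set (Set ℕ)) ≃o Cols ({∅, Set.univ} : Set (Set κ))),
    ∀ 𝓑 : Set (Set κ), IsAlg 𝓑 →
      (∃ 𝓒 : Set (Set κ), Cardinal.mk 𝓒 ≤ ℵ₁ ∧
        ∀ X ∈ 𝓑, ∃ C ∈ 𝓒, (symmDiff X C).Countable) →
      ∃ 𝓐 : Set (Set ℕ), IsAlg 𝓐 ∧ ∃ e : Cols 𝓐 ≃o Cols 𝓑,
        (∀ a, a.1 ∈ Cols ({∅} : Set (Set ℕ)) ↔ (e a).1 ∈ Cols ({∅} : Set (Set κ))) ∧
        ∀ K : Set κ, K.Countable → ∃ g : ℕ → κ → ℕ, (∀ n, InjOn (g n) K) ∧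
          ∀ x : ℕ → Set κ, (∀ n, x n ∈ 𝓑 ∧ x n ⊆ K) →
            ∃ h : PFin.mk (colSet fun n => g n '' x n) ∈ Cols 𝓐,
              (e ⟨_, h⟩).1 = PFin.mk (colSet x),
    ∀ 𝓐 : Set (Set ℕ), Cardinal.mk 𝓐 ≤ ℵ₁ → IsAlg 𝓐 → ∃ 𝓑 : Set (Set κ), IsAlg 𝓑 ∧
      ∃ e : Cols 𝓐 ≃o Cols 𝓑, ∀ a,
        a.1 ∈ Cols ({∅} : Set (Set ℕ)) ↔ (e a).1 ∈ Cols ({∅} : Set (Set κ)),
    Cardinal.mk κ = ℵ₁ ∧ ∃ F : Set (ℕ → ℕ), Cardinal.mk F ≤ ℵ₁ ∧
      ∀ g : ℕ → ℕ, ∃ f ∈ F, ∀ᶠ n in atTop, g n ≤ f n] := by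
  have hsmall : ∀ {μ : Type}, Cardinal.mk ({∅, Set.univ} : Set (Set μ)) ≤ ℵ₁ := fun {μ} =>
    (le_aleph0_iff_set_countable.2 (Set.toFinite _).countable).trans aleph0_lt_aleph_one.le
  have hsub : ∀ {μ : Type} {𝓑 : Set (Set μ)}, IsAlg 𝓑 →
      Cols ({∅} : Set (Set μ)) ⊆ Cols 𝓑 := by
    rintro μ 𝓑 h _ ⟨x, hx, rfl⟩
    refine ⟨x, fun n => ?_, rfl⟩
    obtain ⟨B, rfl, hB⟩ := hx n
    exact ⟨∅, h.1, hB⟩
  tfae_have 1 → 5 := fun ⟨e⟩ => dom_of_iso e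
  tfae_have 5 → 3 := fun ⟨h1, h2⟩ 𝓑 hB hsm => exists_lt_twin_cols h1.le h2 hB hsm
  tfae_have 5 → 4 := fun ⟨h1, h2⟩ 𝓐 h𝓐 hA => exists_twin' h1.le h2 𝓐 h𝓐 hA
  tfae_have 3 → 1 := by
    intro h
    obtain ⟨𝓐, hA, e, he, -⟩ := h {∅, Set.univ} isAlg_pair ⟨{∅, Set.univ}, hsmall,
      fun X hX => ⟨X, hX, by rw [symmDiff_self]; exact countable_empty⟩⟩
    exact restrict_fin (hsub hA) (hsub isAlg_pair) e he
  tfae_have 4 → 1 := by
    intro h
    obtain ⟨𝓑, hB, e, he⟩ := h _ hsmall isAlg_pair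
    exact restrict_fin (hsub isAlg_pair) (hsub hB) e he
  tfae_have 2 → 1 := fun ⟨e⟩ => fin_of_pair e
  tfae_have 5 → 2 := fun ⟨h1, h2⟩ => exists_iso_pair h1.le h2
  tfae_finish

end Pool.Agent.Results.MP_16b18c_lc.SmallColumns
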