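import Pool.Agent.Work.MP_16b18c_lc.Groups

/-!
# `ω* ≅ κ*` gives a copy of `Sym(κ)` consisting of nontrivial automorphisms

Let `κ` be an uncountable set and `Φ` an isomorphism from `P(ω)/Fin` to `P(κ)/Fin`. Then there is
a homomorphism `j` from the group `Sym(κ)` of all permutations of `κ` to itself such that for every
`g ≠ 1` the automorphism `Φ⁻¹ ∘ j(g) ∘ Φ` of `P(ω)/Fin` is not of the form `[A] ↦ [f⁻¹[A]]` for any
`f : ω → ω`; in particular it is nontrivial.
-/

namespace Pool.Agent.Results.MP_16b18c_lc.SymmetricGroup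

open Pool.Agent.Work.MP_16b18c_lc

theorem result {κ : Type*} [Uncountable κ] (Φ : PFin ℕ ≃o PFin κ) :
    ∃ j : Equiv.Perm κ →* Equiv.Perm κ, ∀ g : Equiv.Perm κ, g ≠ 1 →
      ¬ IsInduced (transport Φ (j g)) :=
  exists_embedding Φ

end Pool.Agent.Results.MP_16b18c_lc.SymmetricGroup
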